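import Pool.Agent.Helper313PK.NotZero

/-!
# A peak set for the analytic Lipschitz class whose distance function is not integrable to `-α`

For every `α ∈ (0, 1)` there is a (countable) closed subset `E` of the unit circle which is a peak set
for the analytic Lipschitz class `A_α` such that the integral of `dist(ζ, E)^{-α}` over the unit circle
is infinite.

The set is the one constructed by helper313 (`Pool/Agent/Helper313PK`) for the problem on the zero sets
of the Gevrey classes: the point `1` and, for every `k`, `N_k` equally spaced points in the arc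
`J_k = {e^{it} : s_k ≤ t < 2 s_k}`, where `s_k = 16^{-k-1}` and `s_k (s_k / N_k)^{-α} ≥ 1/(k+1)`.
On `J_k` the distance to `E` is at most `s_k / N_k`, so the integral over `J_k` is at least `1/(k+1)`.
-/

set_option autoImplicit false

open Metric Filter Topology MeasureTheory Set

namespace Pool.Agent.Results.MP_84bbc2_an.NotIntegrable

/-- The class `A_α`: `f` is analytic in the unit disc, continuous on the closed unit disc, and
`|f(ζ₁) - f(ζ₂)| ≤ C |ζ₁ - ζ₂|^α` for all `ζ₁`, `ζ₂` on the unit circle, for some constant `C`. -/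
def InA (α : ℝ) (f : ℂ → ℂ) : Prop :=
  DifferentiableOn ℂ f (ball 0 1) ∧ ContinuousOn f (closedBall 0 1) ∧
    ∃ C : ℝ, ∀ ζ₁ ∈ sphere (0 : ℂ) 1, ∀ ζ₂ ∈ sphere (0 : ℂ) 1,
      ‖f ζ₁ - f ζ₂‖ ≤ C * ‖ζ₁ - ζ₂‖ ^ α

/-- `E ∈ P_α`: `E` is a closed subset of the unit circle, and some `f ∈ A_α` is `1` on `E` and has
modulus less than `1` on the rest of the unit circle. -/
def IsPeak (α : ℝ) (E : Set ℂ) : Prop :=
  E ⊆ sphere 0 1 ∧ IsClosed E ∧ ∃ f : ℂ → ℂ, InA α f ∧ (∀ ζ ∈ E, f ζ = 1) ∧
    ∀ ζ ∈ sphere (0 : ℂ) 1, ζ ∉ E → ‖f ζ‖ < 1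

/-- The value of `dist(ζ, E)^{-α}` at the point `ζ = e^{it}` of the unit circle. -/
noncomputable def distPow (α : ℝ) (E : Set ℂ) (t : ℝ) : ℝ :=
  infDist (Complex.exp (t * Complex.I)) E ^ (-α)

open Pool.Agent.Helper313PK

theorem countable_EE (α : ℝ) : (EE α).Countable := by
  have e : EE α ⊆ {1} ∪ ⋃ k : ℕ, ⋃ j : ℕ, {pt α k j} := by
    rintro z (rfl | ⟨k, j, -, rfl⟩)
    · exact Or.inl rfl
    · right
      simp only [Set.mem_iUnion]
      exact ⟨k, j, rfl⟩
  refine Set.Countable.mono e ((Set.countable_singleton _).union ?_)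
  exact Set.countable_iUnion fun k => Set.countable_iUnion fun j => Set.countable_singleton _

theorem isPeak_EE {α : ℝ} (h0 : 0 < α) (h1 : α < 1) : IsPeak α (EE α) := by
  obtain ⟨f, hf, ⟨C, hC⟩, hE, hlt⟩ := exists_peak h0 h1
  refine ⟨fun ζ hζ => mem_sphere_zero_iff_norm.2 (EE_norm hζ), EE_closed, f, ⟨hf, ?_, C, ?_⟩,
    hE, ?_⟩
  · intro ζ hζ
    rw [ContinuousWithinAt, tendsto_iff_norm_sub_tendsto_zero]
    have l1 : Tendsto (fun w => C * ‖w - ζ‖ ^ α) (𝓝[closedBall 0 1] ζ) (𝓝 0) := by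
      have : Tendsto (fun w => C * ‖w - ζ‖ ^ α) (𝓝[closedBall 0 1] ζ)
          (𝓝 (C * ‖ζ - ζ‖ ^ α)) := by
        refine Tendsto.mono_left ?_ nhdsWithin_le_nhds
        refine Tendsto.const_mul C ?_
        have hc : ContinuousAt (fun w : ℂ => ‖w - ζ‖ ^ α) ζ :=
          ContinuousAt.rpow_const (by fun_prop) (Or.inr h0.le)
        exact hc.tendsto
      rwa [sub_self, norm_zero, Real.zero_rpow h0.ne', mul_zero] at this
    refine squeeze_zero' (Eventually.of_forall fun _ => norm_nonneg _) ?_ l1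
    filter_upwards [self_mem_nhdsWithin] with w hw
    exact hC w hw ζ hζ
  · intro ζ₁ h₁ ζ₂ h₂
    exact hC ζ₁ (sphere_subset_closedBall h₁) ζ₂ (sphere_subset_closedBall h₂)
  · intro ζ hζ h
    exact hlt ζ (sphere_subset_closedBall hζ) h

/-- The angles of the points of the set are a null set. -/
theorem null_EE (α : ℝ) : volume {t : ℝ | Complex.exp (t * Complex.I) ∈ EE α} = 0 := by
  have h1 : (Complex.exp ⁻¹' (EE α)).Countable := (countable_EE α).preimage_cexp
  have h2 : ((fun t : ℝ => (t : ℂ) * Complex.I) ⁻¹' (Complex.exp ⁻¹' (EE α))).Countable := by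
    refine h1.preimage_of_injOn ?_
    intro s _ t _ h
    have h' : (s : ℂ) * Complex.I = (t : ℂ) * Complex.I := h
    exact_mod_cast mul_right_cancel₀ Complex.I_ne_zero h'
  exact h2.measure_zero volume

theorem distPow_ge {α : ℝ} (h0 : 0 < α) {k : ℕ} {t : ℝ} (ht : t ∈ Ico (ss k) (2 * ss k))
    (hn : Complex.exp (t * Complex.I) ∉ EE α) :
    (ss k / NN α k) ^ (-α) ≤ distPow α (EE α) t := by
  obtain ⟨ζ, hζ, hd⟩ := near_pt (α := α) ht
  have hle : infDist (Complex.exp (t * Complex.I)) (EE α) ≤ ss k / NN α k := by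
    refine (infDist_le_dist_of_mem hζ).trans ?_
    rw [dist_eq_norm]
    exact hd
  have hpos : 0 < infDist (Complex.exp (t * Complex.I)) (EE α) :=
    ((EE_closed (α := α)).notMem_iff_infDist_pos ⟨ζ, hζ⟩).1 hn
  exact Real.rpow_le_rpow_of_nonpos hpos hle (by linarith)

theorem measurable_distPow (α : ℝ) (E : Set ℂ) : Measurable (distPow α E) := by
  have h1 : Measurable (fun t : ℝ => infDist (Complex.exp (t * Complex.I)) E) := by
    refine ((continuous_infDist_pt E).comp ?_).measurable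
    fun_prop
  exact h1.pow_const (-α)

theorem lintegral_ge {α : ℝ} (h0 : 0 < α) (h1 : α < 1) (n : ℕ) :
    ENNReal.ofReal (∑ k ∈ Finset.range n, 1 / ((k : ℝ) + 1)) ≤
      ∫⁻ t in Ioc (0 : ℝ) (2 * Real.pi), ENNReal.ofReal (distPow α (EE α) t) := by
  have hsub : ∀ k : ℕ, Ico (ss k) (2 * ss k) ⊆ Ioc (0 : ℝ) (2 * Real.pi) := by
    intro k t ht
    have a1 := ss_pos k
    have a2 := ss_le k
    have a3 := Real.pi_gt_three
    exact ⟨by linarith [ht.1], by linarith [ht.2]⟩
  have hdisj : (↑(Finset.range n) : Set ℕ).PairwiseDisjoint (fun k => Ico (ss k) (2 * ss k)) := by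
    intro k _ l _ hkl
    rw [Function.onFun, Set.disjoint_left]
    intro t hk hl
    exact hkl (blocks_disjoint hk hl)
  have hblock : ∀ k : ℕ, ENNReal.ofReal (1 / ((k : ℝ) + 1)) ≤
      ∫⁻ t in Ico (ss k) (2 * ss k), ENNReal.ofReal (distPow α (EE α) t) := by
    intro k
    have hs := ss_pos k
    have hge := gap_ge h0 h1 k
    have hstep : ∫⁻ _ in Ico (ss k) (2 * ss k), ENNReal.ofReal ((ss k / NN α k) ^ (-α)) ≤
        ∫⁻ t in Ico (ss k) (2 * ss k), ENNReal.ofReal (distPow α (EE α) t) := by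
      refine lintegral_mono_ae ?_
      have hae : ∀ᵐ t : ℝ, Complex.exp (t * Complex.I) ∉ EE α := by
        rw [ae_iff]
        simpa using null_EE α
      filter_upwards [ae_restrict_mem measurableSet_Ico, ae_restrict_of_ae hae] with t ht hn
      exact ENNReal.ofReal_le_ofReal (distPow_ge h0 ht hn)
    refine le_trans ?_ hstep
    rw [setLIntegral_const, Real.volume_Ico, ← ENNReal.ofReal_mul' (by linarith)]
    refine ENNReal.ofReal_le_ofReal ?_
    have e : 2 * ss k - ss k = ss k := by ring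
    rw [e, mul_comm]
    exact hge
  calc ENNReal.ofReal (∑ k ∈ Finset.range n, 1 / ((k : ℝ) + 1))
      = ∑ k ∈ Finset.range n, ENNReal.ofReal (1 / ((k : ℝ) + 1)) := by
        rw [ENNReal.ofReal_sum_of_nonneg]
        intro k _
        positivity
    _ ≤ ∑ k ∈ Finset.range n, ∫⁻ t in Ico (ss k) (2 * ss k),
          ENNReal.ofReal (distPow α (EE α) t) := Finset.sum_le_sum fun k _ => hblock k
    _ = ∫⁻ t in ⋃ k ∈ Finset.range n, Ico (ss k) (2 * ss k),
          ENNReal.ofReal (distPow α (EE α) t) := by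
        rw [lintegral_biUnion_finset hdisj (fun k _ => measurableSet_Ico)]
    _ ≤ ∫⁻ t in Ioc (0 : ℝ) (2 * Real.pi), ENNReal.ofReal (distPow α (EE α) t) := by
        refine lintegral_mono_set ?_
        refine Set.iUnion₂_subset fun k _ => hsub k

theorem lintegral_top {α : ℝ} (h0 : 0 < α) (h1 : α < 1) :
    ∫⁻ t in Ioc (0 : ℝ) (2 * Real.pi), ENNReal.ofReal (distPow α (EE α) t) = ⊤ := by
  refine ENNReal.eq_top_of_forall_nnreal_le fun r => ?_
  obtain ⟨n, hn⟩ := ((tendsto_atTop.1 Real.tendsto_sum_range_one_div_nat_succ_atTop)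
    (r : ℝ)).exists
  refine le_trans ?_ (lintegral_ge h0 h1 n)
  rw [← ENNReal.ofReal_coe_nnreal]
  exact ENNReal.ofReal_le_ofReal hn

/-- For every `α ∈ (0, 1)` there is a countable closed subset `E` of the unit circle which is a peak
set for `A_α`, while the function `dist(ζ, E)^{-α}` is not integrable on the unit circle: its integral
with respect to the arc length is infinite. -/
theorem result (α : ℝ) (h0 : 0 < α) (h1 : α < 1) :
    ∃ E : Set ℂ, E.Countable ∧ IsPeak α E ∧
      (∫⁻ t in Ioc (0 : ℝ) (2 * Real.pi), ENNReal.ofReal (distPow α E t) = ⊤) ∧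
      ¬ IntegrableOn (distPow α E) (Ioc (0 : ℝ) (2 * Real.pi)) := by
  refine ⟨EE α, countable_EE α, isPeak_EE h0 h1, lintegral_top h0 h1, fun h => ?_⟩
  have h2 := h.lintegral_lt_top
  rw [lintegral_top h0 h1] at h2
  exact lt_irrefl _ h2

end Pool.Agent.Results.MP_84bbc2_an.NotIntegrable
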